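import Mathlib

open Finset Matrix

namespace Pool.Agent.Results.MP_0af767_co.SkewObstruction

section Field

variable {F : Type*} [Field F] [Fintype F] [DecidableEq F]

omit [DecidableEq F] in
lemma sum_field (h4 : 3 ≤ Fintype.card F) : ∑ x : F, x = 0 := by
  have := FiniteField.sum_pow_lt_card_sub_one F 1 (by omega)
  simpa using this

lemma prod_field : ∏ x ∈ (univ : Finset F).erase 0, x = -1 := by
  have h := FiniteField.prod_univ_units_id_eq_neg_one (K := F)
  have h2 : ∏ x : Fˣ, (x : F) = -1 := by
    have := congrArg (fun u : Fˣ => (u : F)) h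
    simpa [Units.coe_prod] using this
  rw [← h2]
  symm
  refine Finset.prod_bij (fun (x : Fˣ) _ => (x : F)) ?_ ?_ ?_ ?_
  · intro a _; simp
  · intro a _ b _ hab; exact Units.ext hab
  · intro b hb
    refine ⟨Units.mk0 b (by simpa using hb), by simp, by simp⟩
  · intro a _; rfl

end Field

section Rows

variable {F : Type*} [Field F] [Fintype F] [DecidableEq F]
variable {ι : Type*} [Fintype ι] [DecidableEq ι]

omit [DecidableEq F] in
lemma diag_sum (hι : Fintype.card ι = Fintype.card F) (A : Matrix ι ι F)
    (h0 : ∀ i j, A i j = 0 ↔ i = j) (j : ι) : ∑ x, A j x * (A j x)⁻¹ = -1 := by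
  have h1 : ∀ x, A j x * (A j x)⁻¹ = 1 - (if x = j then (1 : F) else 0) := by
    intro x
    by_cases hx : x = j
    · subst hx
      have : A x x = 0 := (h0 x x).2 rfl
      simp [this]
    · have : A j x ≠ 0 := by
        intro h; exact hx ((h0 j x).1 h).symm
      simp [hx, this]
  rw [Finset.sum_congr rfl (fun x _ => h1 x), Finset.sum_sub_distrib]
  simp [hι]

lemma pair_sum (h4 : 3 ≤ Fintype.card F) (hι : Fintype.card ι = Fintype.card F)
    (A : Matrix ι ι F) (h0 : ∀ i j, A i j = 0 ↔ i = j)
    (h2 : ∀ i i' j j' : ι, i ≠ i' → j ≠ j' → A i j * A i' j' ≠ A i j' * A i' j)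
    {i j : ι} (hij : i ≠ j) :
    (∑ x, A i x * (A j x)⁻¹) * ((∏ x ∈ univ.erase i, A i x) * A j i)
      = (∏ x ∈ univ.erase j, A j x) * A i j := by
  have hne : ∀ a b, a ≠ b → A a b ≠ 0 := fun a b hab h => hab ((h0 a b).1 h)
  set φ : ι → F := fun x => A i x * (A j x)⁻¹ with hφ
  have hinj : Set.InjOn φ (univ.erase j : Finset ι) := by
    intro x hx y hy hxy
    have hx' : x ≠ j := by simpa using hx
    have hy' : y ≠ j := by simpa using hy
    by_contra hne'
    have hjx := hne j x (Ne.symm hx')
    have hjy := hne j y (Ne.symm hy')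
    apply h2 i j x y hij hne'
    have : A i x * (A j x)⁻¹ = A i y * (A j y)⁻¹ := hxy
    field_simp at this
    linear_combination this
  set T : Finset F := (univ.erase j).image φ with hT
  have hcT : T.card = Fintype.card F - 1 := by
    rw [hT, Finset.card_image_of_injOn hinj, Finset.card_erase_of_mem (mem_univ j),
      Finset.card_univ, hι]
  have hcompl : (univ \ T).card = 1 := by
    rw [Finset.card_sdiff_of_subset (Finset.subset_univ T), hcT, Finset.card_univ]
    omega
  obtain ⟨ρ, hρ⟩ := Finset.card_eq_one.1 hcompl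
  have hTρ : T = univ.erase ρ := by
    ext y
    have : y ∈ univ \ T ↔ y ∈ ({ρ} : Finset F) := by rw [hρ]
    simp only [mem_sdiff, mem_univ, true_and, mem_singleton] at this
    simp only [mem_erase, mem_univ, and_true]
    tauto
  have hsum : ∑ x, φ x = -ρ := by
    have e1 : ∑ x, φ x = ∑ x ∈ univ.erase j, φ x := by
      rw [← Finset.add_sum_erase univ φ (mem_univ j)]
      have : φ j = 0 := by simp [hφ, (h0 j j).2 rfl]
      rw [this, zero_add]
    have e2 : ∑ x ∈ univ.erase j, φ x = ∑ y ∈ T, y := by
      rw [hT, Finset.sum_image hinj]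
    have e3 : ρ + ∑ y ∈ univ.erase ρ, y = ∑ y : F, y :=
      Finset.add_sum_erase univ (fun y => y) (mem_univ ρ)
    rw [sum_field h4] at e3
    rw [e1, e2, hTρ]
    linear_combination e3
  have hφi : φ i = 0 := by simp [hφ, (h0 i i).2 rfl]
  have h0T : (0 : F) ∈ T := by
    rw [hT, mem_image]
    exact ⟨i, by simp [hij], hφi⟩
  have hρ0 : ρ ≠ 0 := by
    intro h
    rw [hTρ, h] at h0T
    simp at h0T
  -- product
  have p1 : ρ * ∏ y ∈ ((univ : Finset F).erase 0).erase ρ, y = -1 := by
    rw [← prod_field (F := F)]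
    exact Finset.mul_prod_erase ((univ : Finset F).erase 0) (fun y => y) (by simp [hρ0])
  have p2 : ((univ : Finset F).erase 0).erase ρ = ((univ.erase j).erase i).image φ := by
    ext y
    simp only [mem_erase, mem_univ, and_true, mem_image]
    constructor
    · rintro ⟨hy1, hy2⟩
      have : y ∈ T := by rw [hTρ]; simp [hy1]
      rw [hT, mem_image] at this
      obtain ⟨x, hx, hxy⟩ := this
      refine ⟨x, ⟨?_, by simpa using hx⟩, hxy⟩
      rintro rfl
      exact hy2 (by rw [← hxy, hφi])
    · rintro ⟨x, ⟨hxi, hxj⟩, hxy⟩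
      have hyT : y ∈ T := by
        rw [hT, mem_image]; exact ⟨x, by simp [hxj], hxy⟩
      rw [hTρ] at hyT
      refine ⟨by simpa using hyT, ?_⟩
      intro hy
      have h1 := hne i x (Ne.symm hxi)
      have h2' := hne j x (Ne.symm hxj)
      rw [hy] at hxy
      exact (mul_ne_zero h1 (inv_ne_zero h2')) hxy
  have hinj2 : Set.InjOn φ ((univ.erase j).erase i : Finset ι) := by
    apply hinj.mono
    intro x hx
    simp only [coe_erase, Set.mem_sdiff] at hx ⊢
    exact hx.1
  rw [p2, Finset.prod_image hinj2] at p1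
  have p3 : ∏ x ∈ (univ.erase j).erase i, φ x
      = (∏ x ∈ (univ.erase j).erase i, A i x) * (∏ x ∈ (univ.erase j).erase i, A j x)⁻¹ := by
    rw [← Finset.prod_inv_distrib, ← Finset.prod_mul_distrib]
  have hb : (∏ x ∈ (univ.erase j).erase i, A j x) ≠ 0 := by
    rw [Finset.prod_ne_zero_iff]
    intro x hx
    simp only [mem_erase, mem_univ, and_true] at hx
    exact hne j x (Ne.symm hx.2)
  have r1 : ∏ x ∈ univ.erase i, A i x = A i j * ∏ x ∈ (univ.erase j).erase i, A i x := by
    rw [Finset.erase_right_comm]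
    exact (Finset.mul_prod_erase (univ.erase i) (fun x => A i x) (by simp [Ne.symm hij])).symm
  have r2 : ∏ x ∈ univ.erase j, A j x = A j i * ∏ x ∈ (univ.erase j).erase i, A j x :=
    (Finset.mul_prod_erase (univ.erase j) (fun x => A j x) (by simp [hij])).symm
  rw [hsum, r1, r2]
  rw [p3] at p1
  set a := ∏ x ∈ (univ.erase j).erase i, A i x
  set b := ∏ x ∈ (univ.erase j).erase i, A j x
  have p4 : ρ * a = -b := by
    field_simp at p1
    linear_combination p1
  linear_combination (-(A i j * A j i)) * p4

omit [DecidableEq F] in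
/-- The rows `j ∈ J` of the entrywise inverse lie, after scaling, on an affine line. -/
lemma affine_line [DecidableEq F] (h4 : 3 ≤ Fintype.card F) (hι : Fintype.card ι = Fintype.card F)
    (A : Matrix ι ι F) (hA : IsUnit A) (h0 : ∀ i j, A i j = 0 ↔ i = j)
    (h2 : ∀ i i' j j' : ι, i ≠ i' → j ≠ j' → A i j * A i' j' ≠ A i j' * A i' j)
    {b c : ι} (hbc : b ≠ c) (J : Finset ι)
    (hJ : ∀ j ∈ J, j ≠ c ∧ ∀ i, i ≠ c → A i j * A j b * A b i = -(A j i * A b j * A i b)) :
    ∃ v w t d : ι → F, ∀ j ∈ J, d j ≠ 0 ∧ ∀ x, d j * (A j x)⁻¹ = v x + t j * w x := by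
  have hne : ∀ a b, a ≠ b → A a b ≠ 0 := fun a b hab h => hab ((h0 a b).1 h)
  set e : ι → F := fun i => if i = b then 1 else -(A i b) / (A b i) with he
  have he0 : ∀ i, e i ≠ 0 := by
    intro i
    by_cases hi : i = b
    · simp [he, hi]
    · simp only [he, hi, if_false]
      exact div_ne_zero (neg_ne_zero.2 (hne i b hi)) (hne b i (Ne.symm hi))
  set R : ι → F := fun i => ∏ x ∈ univ.erase i, A i x with hR
  have hR0 : ∀ i, R i ≠ 0 := by
    intro i
    rw [hR]
    simp only
    rw [Finset.prod_ne_zero_iff]
    intro x hx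
    exact hne i x (Ne.symm (by simpa using hx))
  set d : ι → F := fun i => e i / R i with hd
  have hd0 : ∀ i, d i ≠ 0 := fun i => div_ne_zero (he0 i) (hR0 i)
  have hskew : ∀ j ∈ J, ∀ i, i ≠ c → i ≠ j → A i j * e j = -(A j i * e i) := by
    intro j hj i hic hij
    by_cases hib : i = b
    · subst hib
      have hbj := hne i j hij
      simp only [he, if_true, if_neg (Ne.symm hij)]
      field_simp
    · by_cases hjb : j = b
      · subst hjb
        have hbi := hne j i (Ne.symm hij)
        simp only [he, if_true, if_neg hib]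
        field_simp
      · have hbi := hne b i (Ne.symm hib)
        have hbj := hne b j (Ne.symm hjb)
        have := (hJ j hj).2 i hic
        simp only [he, if_neg hib, if_neg hjb]
        field_simp
        linear_combination (-1 : F) * this
  set n : ι → ι → F := fun j x => d j * (A j x)⁻¹ with hn
  have hmul : ∀ j ∈ J ∪ {b}, ∀ i, i ≠ c → (A *ᵥ n j) i = -d i := by
    intro j hj i hic
    have e1 : (A *ᵥ n j) i = d j * ∑ x, A i x * (A j x)⁻¹ := by
      simp only [Matrix.mulVec, dotProduct, hn, Finset.mul_sum]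
      exact Finset.sum_congr rfl (fun x _ => by ring)
    by_cases hij : i = j
    · subst hij
      rw [e1, diag_sum hι A h0]
      ring
    · have hsk : A i j * e j = -(A j i * e i) := by
        rcases Finset.mem_union.1 hj with hj | hj
        · exact hskew j hj i hic hij
        · have hjb : j = b := by simpa using hj
          subst hjb
          have hbi := hne j i (Ne.symm hij)
          simp only [he, if_true, if_neg hij]
          field_simp
      have hp := pair_sum h4 hι A h0 h2 hij
      rw [e1]
      have hji := hne j i (Ne.symm hij)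
      have hRi := hR0 i
      have hRj := hR0 j
      have hp' : (∑ x, A i x * (A j x)⁻¹) * (R i * A j i) = R j * A i j := hp
      set S := ∑ x, A i x * (A j x)⁻¹
      simp only [hd]
      have key : A j i * (S * e j * R i + e i * R j) = 0 := by
        linear_combination (e j) * hp' + (R j) * hsk
      have key2 : S * e j * R i + e i * R j = 0 := by
        rcases mul_eq_zero.1 key with h | h
        · exact absurd h hji
        · exact h
      field_simp
      linear_combination key2
  set w : ι → F := A⁻¹ *ᵥ (Pi.single c 1) with hw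
  refine ⟨n b, w, fun j => (A *ᵥ (n j - n b)) c, d, ?_⟩
  intro j hj
  refine ⟨hd0 j, ?_⟩
  intro x
  have hdiff : A *ᵥ (n j - n b) = ((A *ᵥ (n j - n b)) c) • (Pi.single c 1 : ι → F) := by
    funext i
    by_cases hic : i = c
    · subst hic; simp
    · rw [Matrix.mulVec_sub]
      simp only [Pi.sub_apply, Pi.smul_apply, Pi.single_eq_of_ne hic, smul_zero]
      rw [hmul j (by simp [hj]) i hic, hmul b (by simp) i hic, sub_self]
  have hdet : IsUnit A.det := (Matrix.isUnit_iff_isUnit_det A).1 hA
  have h3 : n j - n b = ((A *ᵥ (n j - n b)) c) • w := by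
    calc n j - n b = A⁻¹ *ᵥ (A *ᵥ (n j - n b)) := by
          rw [Matrix.mulVec_mulVec, Matrix.nonsing_inv_mul A hdet, Matrix.one_mulVec]
      _ = A⁻¹ *ᵥ (((A *ᵥ (n j - n b)) c) • (Pi.single c 1 : ι → F)) := by rw [← hdiff]
      _ = ((A *ᵥ (n j - n b)) c) • w := by rw [Matrix.mulVec_smul]
  have h4' := congrFun h3 x
  simp only [Pi.sub_apply, Pi.smul_apply, smul_eq_mul] at h4'
  have h5 : d j * (A j x)⁻¹ = n j x := rfl
  rw [h5]
  linear_combination h4'

omit [DecidableEq F] [Fintype F] in
lemma choose_zero {p : ℕ} [CharP F p] (hp : p.Prime) {r m : ℕ} (hr : 1 ≤ r)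
    (hm : m % p = p - 1) : ((Nat.choose (p * r - 2) m : ℕ) : F) = 0 := by
  have := Fact.mk hp
  rw [CharP.cast_eq_zero_iff F p]
  have h2 := hp.two_le
  have h := Choose.choose_modEq_choose_mod_mul_choose_div_nat (n := p * r - 2) (k := m) (p := p)
  have hmod : (p * r - 2) % p = p - 2 := by
    obtain ⟨s, rfl⟩ : ∃ s, r = s + 1 := ⟨r - 1, by omega⟩
    have : p * (s + 1) - 2 = (p - 2) + p * s := by
      rw [Nat.mul_add]; omega
    rw [this, Nat.add_mul_mod_self_left]
    exact Nat.mod_eq_of_lt (by omega)
  rw [hmod, hm, Nat.choose_eq_zero_of_lt (by omega : p - 2 < p - 1), zero_mul] at h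
  exact (Nat.modEq_zero_iff_dvd).1 h

omit [DecidableEq F] [DecidableEq ι] in
lemma card_le [DecidableEq ι] {p : ℕ} [CharP F p] (hp : p.Prime) {r : ℕ} (hr : 2 ≤ r)
    (hq : Fintype.card F = p * r)
    (A : Matrix ι ι F) (hA : IsUnit A) (J : Finset ι)
    (v w t d : ι → F)
    (H : ∀ j ∈ J, d j ≠ 0 ∧ ∀ x, d j * (A j x)⁻¹ = v x + t j * w x) :
    J.card + r ≤ Fintype.card F := by
  classical
  have hp2 := hp.two_le
  have hq4 : 4 ≤ Fintype.card F := by rw [hq]; nlinarith
  set q := Fintype.card F with hqdef
  set K : Finset ℕ := (range (q - 1)).filter (fun m => m % p ≠ p - 1) with hK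
  set u : ℕ → (ι → F) := fun m x => (w x) ^ m * (v x) ^ (q - 2 - m) with hu
  set U : Submodule F (ι → F) := Submodule.span F ((K.image u : Finset (ι → F)) : Set (ι → F))
    with hU
  have hinv : ∀ y : F, y⁻¹ = y ^ (q - 2) := by
    intro y
    by_cases hy : y = 0
    · subst hy
      rw [_root_.inv_zero, zero_pow (by omega)]
    · have h1 := FiniteField.pow_card_sub_one_eq_one y hy
      have h2 : y ^ (q - 2) * y = 1 := by
        rw [← pow_succ, show q - 2 + 1 = Fintype.card F - 1 by omega, h1]
      exact (eq_inv_of_mul_eq_one_left h2).symm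
  have hmem : ∀ j ∈ J, A j ∈ U := by
    intro j hj
    obtain ⟨hd, hx⟩ := H j hj
    have hrow : A j = ∑ m ∈ K, (d j * (t j) ^ m * ((Nat.choose (q - 2) m : ℕ) : F)) • u m := by
      funext x
      have e1 : A j x = d j * (v x + t j * w x)⁻¹ := by
        rw [← hx x, mul_inv, inv_inv]
        field_simp
      have e2 : (v x + t j * w x)⁻¹ = ∑ m ∈ range (q - 1),
          (t j * w x) ^ m * (v x) ^ (q - 2 - m) * ((Nat.choose (q - 2) m : ℕ) : F) := by
        rw [hinv, add_comm (v x), add_pow, show q - 2 + 1 = q - 1 by omega]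
      have e3 : ∑ m ∈ range (q - 1),
          (t j * w x) ^ m * (v x) ^ (q - 2 - m) * ((Nat.choose (q - 2) m : ℕ) : F)
          = ∑ m ∈ K, (t j * w x) ^ m * (v x) ^ (q - 2 - m) * ((Nat.choose (q - 2) m : ℕ) : F) := by
        symm
        apply Finset.sum_subset (Finset.filter_subset _ _)
        intro m hm hm2
        have hmp : m % p = p - 1 := by
          by_contra hcon
          exact hm2 (mem_filter.2 ⟨hm, hcon⟩)
        have : ((Nat.choose (q - 2) m : ℕ) : F) = 0 := by
          rw [hq]; exact choose_zero hp (by omega) hmp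
        rw [this, mul_zero]
      rw [e1, e2, e3, Finset.mul_sum, Finset.sum_apply]
      apply Finset.sum_congr rfl
      intro m _
      simp only [Pi.smul_apply, smul_eq_mul, hu]
      ring
    rw [hrow]
    apply Submodule.sum_mem
    intro m hm
    apply Submodule.smul_mem
    apply Submodule.subset_span
    simp only [coe_image, Set.mem_image, mem_coe]
    exact ⟨m, hm, rfl⟩
  have hli : LinearIndependent F (fun j : J => A j) := by
    have h1 : LinearIndependent F A.row := Matrix.linearIndependent_rows_iff_isUnit.2 hA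
    exact h1.comp (fun j : J => (j : ι)) Subtype.val_injective
  have hfin : Module.finrank F (Submodule.span F (Set.range (fun j : J => A j))) = J.card := by
    rw [finrank_span_eq_card hli]; simp
  have hle : Submodule.span F (Set.range (fun j : J => A j)) ≤ U := by
    rw [Submodule.span_le]
    rintro _ ⟨j, rfl⟩
    exact hmem j j.2
  have hUK : Module.finrank F U ≤ K.card :=
    (finrank_span_finset_le_card _).trans Finset.card_image_le
  have hJK : J.card ≤ K.card := by
    rw [← hfin]; exact (Submodule.finrank_mono hle).trans hUK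
  -- count K
  have hB : r - 1 ≤ ((range (q - 1)).filter (fun m => ¬ (m % p ≠ p - 1))).card := by
    have : ((range (r - 1)).image (fun k => p * k + (p - 1))).card = r - 1 := by
      rw [Finset.card_image_of_injective, Finset.card_range]
      intro a b hab
      have : p * a = p * b := by
        simp only at hab; omega
      exact Nat.eq_of_mul_eq_mul_left (by omega) this
    rw [← this]
    apply Finset.card_le_card
    intro m hm
    simp only [mem_image, mem_range] at hm
    obtain ⟨k, hk, rfl⟩ := hm
    simp only [mem_filter, mem_range, not_not]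
    refine ⟨?_, ?_⟩
    · have h1 : p * k + p ≤ p * (r - 1) := by
        have : p * (k + 1) ≤ p * (r - 1) := Nat.mul_le_mul_left p (by omega)
        rw [Nat.mul_add, Nat.mul_one] at this
        exact this
      have h2 : p * (r - 1) + p = p * r := by
        obtain ⟨s, rfl⟩ : ∃ s, r = s + 1 := ⟨r - 1, by omega⟩
        simp [Nat.mul_add]
      omega
    · rw [Nat.add_comm, Nat.add_mul_mod_self_left]
      exact Nat.mod_eq_of_lt (by omega)
  have hsplit := Finset.card_filter_add_card_filter_not (s := range (q - 1))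
    (fun m => m % p ≠ p - 1)
  rw [Finset.card_range] at hsplit
  have hK' : K.card = ((range (q - 1)).filter (fun m => m % p ≠ p - 1)).card := rfl
  omega

end Rows

theorem result {F : Type*} [Field F] [Fintype F] [DecidableEq F]
    (hF : ¬ (Fintype.card F).Prime)
    {ι : Type*} [Fintype ι] [DecidableEq ι] (hι : Fintype.card ι = Fintype.card F)
    (M : Matrix ι ι F) (hM : IsUnit M)
    (h2 : ∀ i i' j j' : ι, i ≠ i' → j ≠ j' → M i j * M i' j' ≠ M i j' * M i' j) :
    ∃ σ : Equiv.Perm ι, (∀ i j, M i j = 0 ↔ j = σ i) ∧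
      ∀ b c : ι, b ≠ c →
        Fintype.card F / ringChar F ≤
          (univ.filter fun j => j ≠ c ∧ ∃ i, i ≠ c ∧
            M i (σ j) * M j (σ b) * M b (σ i) ≠ -(M j (σ i) * M b (σ j) * M i (σ b))).card
          + 1 := by
  classical
  obtain ⟨p, hchar⟩ := CharP.exists F
  obtain ⟨n, hp, hcard⟩ := FiniteField.card F p
  have hrc : ringChar F = p := ringChar.eq F p
  have hn2 : 2 ≤ (n : ℕ) := by
    rcases Nat.lt_or_ge (n : ℕ) 2 with h | h
    · have : (n : ℕ) = 1 := by have := n.pos; omega
      rw [this, pow_one] at hcard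
      exact absurd (hcard ▸ hp) hF
    · exact h
  obtain ⟨s, hs⟩ : ∃ s, (n : ℕ) = s + 2 := ⟨n - 2, by omega⟩
  set r := p ^ (s + 1) with hr
  have hp2 := hp.two_le
  have hr2 : 2 ≤ r := by
    rw [hr]
    calc 2 ≤ p := hp2
      _ = p ^ 1 := (pow_one p).symm
      _ ≤ p ^ (s + 1) := Nat.pow_le_pow_right (by omega) (by omega)
  have hqr : Fintype.card F = p * r := by
    rw [hcard, hs, hr]; ring
  have h4 : 4 ≤ Fintype.card F := by rw [hqr]; nlinarith
  have hdet : M.det ≠ 0 := ((Matrix.isUnit_iff_isUnit_det M).1 hM).ne_zero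
  have hcι : 4 ≤ Fintype.card ι := by omega
  -- another index
  have hother : ∀ a : ι, ∃ a', a ≠ a' := by
    intro a
    by_contra hcon
    push Not at hcon
    have : Fintype.card ι ≤ 1 := Fintype.card_le_one_iff.2 (fun x y => (hcon x).symm.trans (hcon y))
    omega
  -- each row has a zero
  have hzero : ∀ i, ∃ j, M i j = 0 := by
    intro i0
    by_contra hcon
    push Not at hcon
    apply hdet
    rw [← Matrix.exists_mulVec_eq_zero_iff]
    refine ⟨fun x => (M i0 x)⁻¹, ?_, ?_⟩
    · intro h
      obtain ⟨a', _⟩ := hother i0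
      have := congrFun h a'
      simp only [Pi.zero_apply] at this
      exact hcon a' (inv_eq_zero.1 this)
    · funext i
      simp only [Matrix.mulVec, dotProduct, Pi.zero_apply]
      by_cases hi : i = i0
      · subst hi
        have : ∀ x, M i x * (M i x)⁻¹ = 1 := fun x => mul_inv_cancel₀ (hcon x)
        rw [Finset.sum_congr rfl (fun x _ => this x)]
        simp [hι]
      · have hinj : Function.Injective (fun x => M i x * (M i0 x)⁻¹) := by
          intro x y hxy
          by_contra hne
          have hx := hcon x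
          have hy := hcon y
          apply h2 i i0 x y hi hne
          simp only at hxy
          field_simp at hxy
          linear_combination hxy
        have hbij : Function.Bijective (fun x => M i x * (M i0 x)⁻¹) :=
          (Fintype.bijective_iff_injective_and_card _).2 ⟨hinj, hι⟩
        rw [hbij.sum_comp (fun y : F => y)]
        exact sum_field (by omega)
  choose σ0 hσ0 using hzero
  have huniq : ∀ i j j', M i j = 0 → M i j' = 0 → j = j' := by
    intro i j j' hj hj'
    by_contra hne
    obtain ⟨i', hi'⟩ := hother i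
    exact h2 i i' j j' hi' hne (by rw [hj, hj']; ring)
  have hσinj : Function.Injective σ0 := by
    intro i i' h
    by_contra hne
    obtain ⟨j', hj'⟩ := hother (σ0 i)
    apply h2 i i' (σ0 i) j' hne hj'
    rw [hσ0 i, h, hσ0 i']; ring
  have hσbij : Function.Bijective σ0 := Finite.injective_iff_bijective.1 hσinj
  set σ : Equiv.Perm ι := Equiv.ofBijective σ0 hσbij with hσ
  have hσapp : ∀ i, σ i = σ0 i := fun i => rfl
  have hMσ : ∀ i j, M i j = 0 ↔ j = σ i := by
    intro i j
    constructor
    · intro h; exact huniq i j (σ i) h (by rw [hσapp]; exact hσ0 i)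
    · rintro rfl; rw [hσapp]; exact hσ0 i
  refine ⟨σ, hMσ, ?_⟩
  intro b c hbc
  set A : Matrix ι ι F := M.submatrix id σ with hA
  have hAapp : ∀ i j, A i j = M i (σ j) := fun i j => rfl
  have hAunit : IsUnit A := by
    rw [Matrix.isUnit_iff_isUnit_det]
    have : A.det = (Equiv.Perm.sign σ : ℤ) * M.det := by
      rw [hA, Matrix.det_permute']
    rw [this]
    have h1 : IsUnit M.det := (Matrix.isUnit_iff_isUnit_det M).1 hM
    have h3 : IsUnit (((Equiv.Perm.sign σ : ℤ) : F)) := by
      rcases Int.units_eq_one_or (Equiv.Perm.sign σ) with h | h <;> simp [h]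
    exact h3.mul h1
  have hA0 : ∀ i j, A i j = 0 ↔ i = j := by
    intro i j
    rw [hAapp, hMσ]
    exact ⟨fun h => (σ.injective h).symm, fun h => by rw [h]⟩
  have hA2 : ∀ i i' j j' : ι, i ≠ i' → j ≠ j' → A i j * A i' j' ≠ A i j' * A i' j := by
    intro i i' j j' hi hj
    exact h2 i i' (σ j) (σ j') hi (fun h => hj (σ.injective h))
  set B := univ.filter fun j => j ≠ c ∧ ∃ i, i ≠ c ∧
            M i (σ j) * M j (σ b) * M b (σ i) ≠ -(M j (σ i) * M b (σ j) * M i (σ b)) with hB
  set J : Finset ι := univ.filter fun j => j ≠ c ∧ ∀ i, i ≠ c →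
            A i j * A j b * A b i = -(A j i * A b j * A i b) with hJ
  obtain ⟨v, w, t, d, H⟩ := affine_line (by omega) hι A hAunit hA0 hA2 hbc J (by
    intro j hj
    rw [hJ, mem_filter] at hj
    exact hj.2)
  have hJle := card_le hp hr2 hqr A hAunit J v w t d H
  have hunion : (univ : Finset ι).erase c ⊆ J ∪ B := by
    intro j hj
    have hjc : j ≠ c := by simpa using hj
    by_cases hall : ∀ i, i ≠ c → A i j * A j b * A b i = -(A j i * A b j * A i b)
    · apply Finset.mem_union_left
      rw [hJ, mem_filter]; exact ⟨mem_univ _, hjc, hall⟩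
    · apply Finset.mem_union_right
      push Not at hall
      rw [hB, mem_filter]
      exact ⟨mem_univ _, hjc, hall⟩
  have hc1 : (univ.erase c : Finset ι).card = Fintype.card F - 1 := by
    rw [Finset.card_erase_of_mem (mem_univ c), Finset.card_univ, hι]
  have hc2 := (Finset.card_le_card hunion).trans (Finset.card_union_le J B)
  have hdiv : Fintype.card F / ringChar F = r := by
    rw [hrc, hqr]; exact Nat.mul_div_cancel_left r (by omega)
  rw [hdiv]
  omega

end Pool.Agent.Results.MP_0af767_co.SkewObstruction
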